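import Pool.Agent.Helper3.PF.WDefs

/-!
Project PG / CH: chains of positive roots in a root system without the ratio three.
-/

open Module

set_option linter.unusedSectionVars false

namespace PF.W

variable {ι K M N : Type*} [Field K] [CharZero K] [AddCommGroup M] [Module K M] [AddCommGroup N] [Module K N]
  [Fintype ι] {P : RootPairing ι K M N} [P.IsCrystallographic] [P.IsReduced]

theorem coef_unique (b : P.Base) {c d : ι → ℤ}
    (h : ∑ l ∈ b.support, c l • P.root l = ∑ l ∈ b.support, d l • P.root l) {l : ι} (hl : l ∈ b.support) :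
    c l = d l := by
  have h1 : ∑ l ∈ b.support, ((c l - d l : ℤ) : K) • P.root l = 0 := by
    have h2 : ∑ l ∈ b.support, ((c l - d l : ℤ) : K) • P.root l =
        ∑ l ∈ b.support, c l • P.root l - ∑ l ∈ b.support, d l • P.root l := by
      rw [← Finset.sum_sub_distrib]
      refine Finset.sum_congr rfl fun l _ => ?_
      rw [← sub_smul, Int.cast_smul_eq_zsmul]
    rw [h2, h, sub_self]
  have h2 := linearIndepOn_iff'.1 b.linearIndepOn_root b.support (fun l => ((c l - d l : ℤ) : K)) (subset_refl _) h1 l hl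
  have h3 : c l - d l = 0 := by exact_mod_cast h2
  omega

theorem coef_nonneg (b : P.Base) {i : ι} (hi : b.IsPos i) {c : ι → ℤ}
    (hc : P.root i = ∑ l ∈ b.support, c l • P.root l) {l : ι} (hl : l ∈ b.support) : 0 ≤ c l := by
  obtain ⟨f, hf0, hf1, hf2⟩ := b.exists_root_eq_sum_int i
  have h1 : 0 < f := by
    refine hf1.resolve_right ?_
    rw [RootPairing.Base.isPos_iff, RootPairing.Base.height_eq_sum hf2] at hi
    contrapose! hi
    exact Finset.sum_nonpos fun i _ => hi.le i
  rw [coef_unique b (hc.symm.trans hf2) hl]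
  exact h1.le l

private theorem pairing_sum {i j : ι} {s : Finset ι} {c : ι → ℤ} (hc : P.root i = ∑ l ∈ s, c l • P.root l) :
    P.pairingIn ℤ i j = ∑ l ∈ s, c l * P.pairingIn ℤ l j := by
  have h1 : ((P.pairingIn ℤ i j : ℤ) : K) = ((∑ l ∈ s, c l * P.pairingIn ℤ l j : ℤ) : K) := by
    have e : ∀ i j, ((P.pairingIn ℤ i j : ℤ) : K) = P.toLinearMap (P.root i) (P.coroot j) := fun i j =>
      P.algebraMap_pairingIn ℤ i j
    push_cast
    rw [e, hc, map_sum, LinearMap.sum_apply]
    refine Finset.sum_congr rfl fun l _ => ?_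
    rw [e, map_zsmul, LinearMap.smul_apply, zsmul_eq_mul]
  exact_mod_cast h1

/-- A positive root in the span of the simple roots `T` orthogonal to `a`, such that `a` minus the root is a root,
can be replaced by an element of `T`. -/
private theorem move (b : P.Base) {a : ι} {T : Set ι} (hT : ∀ l ∈ T, l ∈ b.support ∧ P.pairingIn ℤ l a = 0) (n : ℕ) :
    ∀ κ, b.height κ = n → b.IsPos κ → (∃ c : ι → ℤ, (∀ l, l ∉ T → c l = 0) ∧ P.root κ = ∑ l ∈ b.support, c l • P.root l) →
      (∃ m, P.root m = P.root a - P.root κ) → ∃ l ∈ T, ∃ m, P.root m = P.root a - P.root l := by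
  classical
  induction n using Nat.strong_induction_on with
  | _ n ih =>
    rintro κ hn hκ ⟨c, hcT, hc⟩ ⟨m, hm⟩
    by_cases hs : κ ∈ b.support
    · refine ⟨κ, ?_, m, hm⟩
      by_contra hT'
      have h1 := hcT κ hT'
      have h2 : ∑ l ∈ b.support, c l • P.root l = ∑ l ∈ b.support, (if l = κ then 1 else 0 : ℤ) • P.root l := by
        rw [← hc, Finset.sum_eq_single_of_mem κ hs]
        · simp
        · intro l _ hl
          simp [hl]
      have h3 := coef_unique b h2 hs
      rw [h1, if_pos rfl] at h3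
      exact absurd h3 (by norm_num)
    · obtain ⟨k, hk, hpos⟩ := hκ.exists_mem_support_pos_pairingIn
      rw [P.zero_lt_pairingIn_iff'] at hpos
      have hkT : k ∈ T := by
        by_contra hkT
        have h1 : P.pairingIn ℤ κ k ≤ 0 := by
          rw [pairing_sum hc]
          refine Finset.sum_nonpos fun l hl => ?_
          by_cases hlk : l = k
          · rw [hcT l (by rw [hlk]; exact hkT), zero_mul]
          · exact mul_nonpos_of_nonneg_of_nonpos (coef_nonneg b hκ hc hl)
              (b.pairingIn_le_zero_of_ne hlk hl hk)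
        omega
      have hne : κ ≠ k := fun h => hs (h ▸ hk)
      have h1 : P.root (P.reflectionPerm k κ) = P.root κ + (-P.pairingIn ℤ κ k) • P.root k := by
        rw [RootPairing.root_reflectionPerm, neg_smul, RootPairing.reflection_apply_root' ℤ, sub_eq_add_neg]
      have h2 : b.IsPos (P.reflectionPerm k κ) := hκ.reflectionPerm hk hne
      have h3 : b.height (P.reflectionPerm k κ) = b.height κ - P.pairingIn ℤ κ k := by
        rw [b.height_add_zsmul h1, RootPairing.Base.height_one_of_mem_support hk]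
        simp
        ring
      have h4 : 0 < b.height (P.reflectionPerm k κ) := h2
      refine ih (b.height (P.reflectionPerm k κ)).toNat (by omega) (P.reflectionPerm k κ) (by omega) h2
        ⟨fun l => c l + if l = k then -P.pairingIn ℤ κ k else 0, ?_, ?_⟩ ⟨P.reflectionPerm k m, ?_⟩
      · intro l hl
        have hlk : l ≠ k := fun h => hl (h ▸ hkT)
        simp [hcT l hl, hlk]
      · rw [h1, hc]
        simp only [add_smul, Finset.sum_add_distrib]
        congr 1
        rw [Finset.sum_eq_single_of_mem k hk]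
        · simp
        · intro l _ hl
          simp [hl]
      · rw [P.root_reflectionPerm, P.root_reflectionPerm, hm, map_sub]
        congr 1
        rw [P.reflection_apply_root]
        have h5 : P.pairingIn ℤ a k = 0 := by
          have h6 := (hT k hkT).2
          exact (P.pairingIn_eq_zero_iff (S := ℤ)).1 h6
        have h6 : P.pairing a k = 0 := by
          rw [← P.algebraMap_pairingIn ℤ a k, h5, map_zero]
        rw [h6, zero_smul, sub_zero]

/-- a positive root which is not simple, on which `f` is not zero, is the sum of a simple root and a positive root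
on which `f` is not zero -/
theorem chain_step (b : P.Base) (h3 : ∀ i j, P.pairingIn ℤ i j ≤ 2) (f : M →ₗ[K] K)
    (hf : ∀ i ∈ b.support, ∃ k : ℕ, f (P.root i) = (k : K)) {a : ι} (ha : b.IsPos a) (has : a ∉ b.support)
    (hfa : f (P.root a) ≠ 0) :
    ∃ k ∈ b.support, ∃ i, b.IsPos i ∧ P.root a = P.root i + P.root k ∧ f (P.root i) ≠ 0 := by
  classical
  by_contra! hcon
  choose! φ hφ using hf
  obtain ⟨j, hj, hpos⟩ := ha.exists_mem_support_pos_pairingIn
  have sub : ∀ l ∈ b.support, 0 < P.pairingIn ℤ l a → ∃ i, b.IsPos i ∧ P.root i = P.root a - P.root l ∧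
      f (P.root a) = f (P.root l) := by
    intro l hl h1
    rw [P.zero_lt_pairingIn_iff'] at h1
    obtain ⟨i, hi⟩ := P.root_sub_root_mem_of_pairingIn_pos h1 (fun h => has (h ▸ hl))
    have h2 : b.IsPos i := ha.sub hl hi
    refine ⟨i, h2, hi, ?_⟩
    have h4 := hcon l hl i h2 (by rw [hi]; abel)
    have h5 := congrArg f hi
    rw [h4, map_sub] at h5
    exact (sub_eq_zero.1 h5.symm)
  obtain ⟨i0, hi0, hi0', hfj⟩ := sub j hj hpos
  have hfi0 : f (P.root i0) = 0 := by rw [hi0', map_sub, hfj, sub_self]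
  obtain ⟨c, -, -, hc⟩ := b.exists_root_eq_sum_int i0
  have hc0 : ∀ l ∈ b.support, 0 ≤ c l := fun l hl => coef_nonneg b hi0 hc hl
  have hcf : ∀ l ∈ b.support, c l ≠ 0 → f (P.root l) = 0 := by
    have h1 : ∑ l ∈ b.support, c l * (φ l : ℤ) = 0 := by
      have h2 : ((∑ l ∈ b.support, c l * (φ l : ℤ) : ℤ) : K) = 0 := by
        rw [← hfi0, hc, map_sum]
        push_cast
        refine Finset.sum_congr rfl fun l hl => ?_
        rw [map_zsmul, hφ l hl, zsmul_eq_mul]
      exact_mod_cast h2
    have h2 := (Finset.sum_eq_zero_iff_of_nonneg fun l hl => mul_nonneg (hc0 l hl) (Int.natCast_nonneg _)).1 h1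
    intro l hl hcl
    have h4 := (mul_eq_zero.1 (h2 l hl)).resolve_left hcl
    have h5 : φ l = 0 := by exact_mod_cast h4
    rw [hφ l hl, h5, Nat.cast_zero]
  have hle : ∀ l ∈ b.support, c l ≠ 0 → P.pairingIn ℤ l a ≤ 0 := by
    intro l hl hcl
    by_contra h1
    obtain ⟨-, -, -, h2⟩ := sub l hl (not_le.1 h1)
    rw [hcf l hl hcl] at h2
    exact hfa h2
  have hsum : P.pairingIn ℤ a a = P.pairingIn ℤ j a + P.pairingIn ℤ i0 a := by
    have h1 : P.root a = ∑ l ∈ ({j, i0} : Finset ι), (1 : ℤ) • P.root l := by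
      have hji : j ≠ i0 := by
        rintro rfl
        exact hfa (hfj.trans hfi0)
      rw [Finset.sum_pair hji, hi0']
      simp
    rw [pairing_sum h1]
    have hji : j ≠ i0 := by
      rintro rfl
      exact hfa (hfj.trans hfi0)
    rw [Finset.sum_pair hji]
    ring
  rw [P.pairingIn_same ℤ a] at hsum
  have hi0a : P.pairingIn ℤ i0 a = ∑ l ∈ b.support, c l * P.pairingIn ℤ l a := pairing_sum hc
  have hterm : ∀ l ∈ b.support, c l * P.pairingIn ℤ l a ≤ 0 := by
    intro l hl
    by_cases hcl : c l = 0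
    · rw [hcl, zero_mul]
    · exact mul_nonpos_of_nonneg_of_nonpos (hc0 l hl) (hle l hl hcl)
  have hzero : ∑ l ∈ b.support, c l * P.pairingIn ℤ l a = 0 := by
    have h1 := Finset.sum_nonpos hterm
    have h2 := h3 j a
    omega
  have hz := (Finset.sum_eq_zero_iff_of_nonpos hterm).1 hzero
  have hT : ∀ l ∈ {l | l ∈ b.support ∧ c l ≠ 0}, l ∈ b.support ∧ P.pairingIn ℤ l a = 0 := by
    rintro l ⟨hl, hcl⟩
    exact ⟨hl, (mul_eq_zero.1 (hz l hl)).resolve_left hcl⟩
  have hn : 0 < b.height i0 := hi0
  obtain ⟨l, ⟨hl, hcl⟩, m, hm⟩ := move b hT (b.height i0).toNat i0 (by omega) hi0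
    ⟨fun l => if l ∈ b.support then c l else 0, by
      intro l hl
      beta_reduce
      by_cases h : l ∈ b.support
      · rw [if_pos h]
        by_contra h'
        exact hl ⟨h, h'⟩
      · rw [if_neg h], by
      rw [hc]
      refine Finset.sum_congr rfl fun l hl => ?_
      beta_reduce
      rw [if_pos hl]⟩ ⟨j, by rw [hi0']; abel⟩
  have h1 : b.IsPos m := ha.sub hl hm
  have h2 := hcon l hl m h1 (by rw [hm]; abel)
  rw [hm, map_sub, hcf l hl hcl, sub_zero] at h2
  exact hfa h2

open Classical in
/-- **The chain lemma.** -/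
theorem chain_count (b : P.Base) (h3 : ∀ i j, P.pairingIn ℤ i j ≤ 2) (f e : M →ₗ[K] K)
    (hf : ∀ i ∈ b.support, ∃ k : ℕ, f (P.root i) = (k : K)) (he : ∀ i ∈ b.support, ∃ k : ℕ, e (P.root i) = (k : K))
    {a : ι} (ha : b.IsPos a) (hea : e (P.root a) = 0) (hfa : f (P.root a) ≠ 0) :
    b.height a ≤ ((pos b).filter fun i => e (P.root i) = 0 ∧ f (P.root i) ≠ 0).card := by
  have hepos : ∀ i, b.IsPos i → ∃ k : ℕ, e (P.root i) = (k : K) := by
    intro i hi
    refine hi.induction_on_add (p := fun i => ∃ k : ℕ, e (P.root i) = (k : K)) he ?_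
    rintro i j k hk ⟨m, hm⟩ hj
    obtain ⟨n, hn⟩ := he j hj
    exact ⟨m + n, by rw [hk, map_add, hm, hn]; push_cast; rfl⟩
  have key : ∀ n : ℕ, ∀ a, b.IsPos a → b.height a = n → e (P.root a) = 0 → f (P.root a) ≠ 0 →
      ∀ m : ℕ, 1 ≤ m → m ≤ n → ∃ i, b.IsPos i ∧ b.height i = m ∧ e (P.root i) = 0 ∧ f (P.root i) ≠ 0 := by
    intro n
    induction n with
    | zero =>
      intro a ha hn
      have : 0 < b.height a := ha
      omega
    | succ n ih =>
      intro a ha hn hea hfa m hm1 hm2
      by_cases hmn : m = n + 1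
      · exact ⟨a, ha, by rw [hmn, hn], hea, hfa⟩
      · have has : a ∉ b.support := by
          intro h
          have := RootPairing.Base.height_one_of_mem_support h
          omega
        obtain ⟨k, hk, i, hi, hik, hfi⟩ := chain_step b h3 f hf ha has hfa
        have h1 : b.height a = b.height i + 1 := by
          rw [b.height_add hik, RootPairing.Base.height_one_of_mem_support hk]
        have h2 : e (P.root i) = 0 := by
          obtain ⟨x, hx⟩ := hepos i hi
          obtain ⟨y, hy⟩ := he k hk
          rw [hik, map_add, hx, hy] at hea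
          have h4 : x + y = 0 := by exact_mod_cast hea
          have h5 : x = 0 := by omega
          rw [hx, h5, Nat.cast_zero]
        exact ih i hi (by omega) h2 hfi m hm1 (by omega)
  have hpos : 0 < b.height a := ha
  obtain ⟨n, hn⟩ := Int.eq_ofNat_of_zero_le hpos.le
  have hk := key n a ha hn hea hfa
  have : Nonempty ι := ⟨a⟩
  choose! g hg using hk
  rw [hn]
  have h4 : ((Finset.Icc 1 n).image g).card = n := by
    rw [Finset.card_image_of_injOn]
    · simp
    · intro x hx y hy hxy
      rw [Finset.mem_coe, Finset.mem_Icc] at hx hy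
      have h5 := (hg x hx.1 hx.2).2.1
      have h6 := (hg y hy.1 hy.2).2.1
      have h7 : b.height (g x) = b.height (g y) := congrArg b.height hxy
      rw [h5, h6] at h7
      exact_mod_cast h7
  have h5 : (Finset.Icc 1 n).image g ⊆ (pos b).filter fun i => e (P.root i) = 0 ∧ f (P.root i) ≠ 0 := by
    intro i hi
    obtain ⟨x, hx, rfl⟩ := Finset.mem_image.1 hi
    rw [Finset.mem_Icc] at hx
    obtain ⟨h6, -, h7, h8⟩ := hg x hx.1 hx.2
    rw [Finset.mem_filter]
    exact ⟨by simpa [pos] using h6, h7, h8⟩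
  have h6 := Finset.card_le_card h5
  rw [h4] at h6
  exact_mod_cast h6

end PF.W
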