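import Pool.Agent.Helper3.PF.LPrime

/-!
Project PG / LW: dominant coweights and the Weyl group.
-/

open Module AddMonoidAlgebra

set_option linter.unusedSectionVars false

namespace PF.W

variable {ι K M N : Type*} [Field K] [CharZero K] [AddCommGroup M] [Module K M] [AddCommGroup N] [Module K N]
  [Fintype ι] {P : RootPairing ι K M N}

/-- `D` has natural pairings with the simple roots. -/
def Dom (b : P.Base) (D : N) : Prop := ∀ i ∈ b.support, ∃ k : ℕ, P.toLinearMap (P.root i) D = (k : K)

theorem Dom.pos {b : P.Base} [P.IsCrystallographic] {D : N} (hD : Dom b D) {i : ι} (hi : b.IsPos i) :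
    ∃ k : ℕ, P.toLinearMap (P.root i) D = (k : K) := by
  refine hi.induction_on_add (p := fun i => ∃ k : ℕ, P.toLinearMap (P.root i) D = (k : K)) hD ?_
  rintro i j k hk ⟨m, hm⟩ hj
  obtain ⟨n, hn⟩ := hD j hj
  exact ⟨m + n, by rw [hk, map_add, LinearMap.add_apply, hm, hn]; push_cast; rfl⟩

private theorem inv_fst (g : (M ≃ₗ[K] M) × (N ≃ₗ[K] N)) (x : M) : (g⁻¹).1 (g.1 x) = x := by
  change (g⁻¹ * g).1 x = x
  rw [inv_mul_cancel]
  rfl

private theorem inv_snd (g : (M ≃ₗ[K] M) × (N ≃ₗ[K] N)) (x : N) : (g⁻¹).2 (g.2 x) = x := by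
  change (g⁻¹ * g).2 x = x
  rw [inv_mul_cancel]
  rfl

/-- If `g` is not 1 then some positive simple root is the image of a negative root. -/
private theorem exists_neg [P.IsRootSystem] [P.IsCrystallographic] [P.IsReduced] (b : P.Base)
    {g : (M ≃ₗ[K] M) × (N ≃ₗ[K] N)} (hg : g ∈ G P) (h1 : g ≠ 1) :
    ∃ k ∈ b.support, ∃ j, ¬ b.IsPos j ∧ g.1 (P.root j) = P.root k := by
  by_contra! hcon
  have hgi : g⁻¹ ∈ G P := inv_mem hg
  apply h1
  rw [← inv_eq_one]
  refine eq_one_of_pos b hgi fun i hi => ?_
  refine hi.induction_on_add (p := fun i => ∀ j, g⁻¹.1 (P.root i) = P.root j → b.IsPos j) ?_ ?_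
  · intro k hk j hj
    by_contra hn
    refine hcon k hk j hn ?_
    rw [← hj]
    simp
  · intro i j k hk hi hj l hl
    obtain ⟨i', hi', -⟩ := map_root hgi i
    obtain ⟨j', hj', -⟩ := map_root hgi j
    have h2 : b.IsPos i' := hi i' hi'
    have h3 : b.IsPos j' := by
      by_contra hn
      refine hcon j hj j' hn ?_
      rw [← hj']
      simp
    refine RootPairing.Base.IsPos.add h2 h3 ?_
    rw [← hl, hk, map_add, hi', hj']

open Classical in
/-- The number of positive roots which are images of negative roots. -/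
private noncomputable def ng (b : P.Base) (g : (M ≃ₗ[K] M) × (N ≃ₗ[K] N)) : ℕ :=
  ((pos b).filter fun i => ∃ j, ¬ b.IsPos j ∧ g.1 (P.root j) = P.root i).card

private theorem refl_root (k i : ι) : P.reflection k (P.root i) = P.root (P.reflectionPerm k i) :=
  (P.root_reflectionPerm k i).symm

private theorem perm_perm (k i : ι) : P.reflectionPerm k (P.reflectionPerm k i) = i := by
  apply P.root.injective
  rw [← refl_root, ← refl_root]
  exact P.reflection_same k _

private theorem ng_lt [P.IsCrystallographic] [P.IsReduced] (b : P.Base) {g : (M ≃ₗ[K] M) × (N ≃ₗ[K] N)} {k j : ι}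
    (hk : k ∈ b.support) (hj : ¬ b.IsPos j) (hkj : g.1 (P.root j) = P.root k) :
    ng b ((P.reflection k, P.coreflection k) * g) < ng b g := by
  classical
  have hneg : ∀ i, ¬ b.IsPos i ↔ b.IsPos (P.reflectionPerm i i) := fun i => by
    let := P.indexNeg
    exact (RootPairing.Base.IsPos.neg_iff_not b i).symm
  unfold ng
  have hkm : k ∈ (pos b).filter fun i => ∃ j, ¬ b.IsPos j ∧ g.1 (P.root j) = P.root i := by
    rw [Finset.mem_filter]
    exact ⟨by simpa [pos] using RootPairing.Base.isPos_of_mem_support hk, j, hj, hkj⟩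
  refine lt_of_le_of_lt ?_ (Finset.card_lt_card (Finset.erase_ssubset hkm))
  refine Finset.card_le_card_of_injOn (fun i => P.reflectionPerm k i) ?_ ?_
  · intro i hi
    rw [Finset.mem_coe, Finset.mem_filter] at hi
    obtain ⟨hi1, j', hj', hij⟩ := hi
    have hi1 : b.IsPos i := by simpa [pos] using hi1
    have h1 : g.1 (P.root j') = P.root (P.reflectionPerm k i) := by
      have h2 : P.reflection k (g.1 (P.root j')) = P.root i := hij
      have h3 := congrArg (P.reflection k) h2
      rw [P.reflection_same] at h3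
      rw [h3, refl_root]
    have hik : i ≠ k := by
      rintro rfl
      have h2 : P.root (P.reflectionPerm i i) = - P.root i := by
        rw [← refl_root, P.reflection_apply_self]
      rw [h2, ← hkj, ← map_neg] at h1
      have h3 : P.root j' = P.root (P.reflectionPerm j j) := by
        rw [← refl_root, P.reflection_apply_self]
        exact g.1.injective h1
      rw [P.root.injective h3] at hj'
      exact hj' ((hneg j).1 hj)
    have h2 : b.IsPos (P.reflectionPerm k i) := hi1.reflectionPerm hk hik
    rw [Finset.mem_coe, Finset.mem_erase, Finset.mem_filter]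
    refine ⟨?_, by simpa [pos] using h2, j', hj', h1⟩
    intro h3
    have h4 : i = P.reflectionPerm k k := by
      have h5 := congrArg (P.reflectionPerm k) h3
      rwa [perm_perm] at h5
    rw [h4] at hi1
    exact absurd hi1 (by
      rw [← hneg, not_not]
      exact RootPairing.Base.isPos_of_mem_support hk)
  · intro i _ i' _ h
    have h5 := congrArg (P.reflectionPerm k) h
    simpa only [perm_perm] using h5

/-- A dominant coweight minus its image is a combination of simple coroots with natural coefficients. -/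
theorem dom_cone [P.IsRootSystem] [P.IsCrystallographic] [P.IsReduced] (b : P.Base) {D : N} (hD : Dom b D)
    {g : (M ≃ₗ[K] M) × (N ≃ₗ[K] N)} (hg : g ∈ G P) :
    ∃ κ : ι → ℕ, D - g.2 D = ∑ i ∈ b.support, (κ i : K) • P.coroot i := by
  classical
  obtain ⟨n, hn⟩ : ∃ n, ng b g = n := ⟨_, rfl⟩
  induction n using Nat.strong_induction_on generalizing g with
  | _ n ih =>
    by_cases h1 : g = 1
    · refine ⟨0, ?_⟩
      subst h1
      simp
    obtain ⟨k, hk, j, hj, hkj⟩ := exists_neg b hg h1
    have h2 := ng_lt b (g := g) hk hj hkj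
    obtain ⟨κ, hκ⟩ := ih _ (hn ▸ h2) (mul_mem (refl_mem k) hg) rfl
    -- the pairing of the simple root `k` with `g D` is the pairing of the negative root `j` with `D`
    obtain ⟨m, hm⟩ : ∃ m : ℕ, P.toLinearMap (P.root k) (g.2 D) = -(m : K) := by
      have hneg : b.IsPos (P.reflectionPerm j j) := by
        let := P.indexNeg
        exact (RootPairing.Base.IsPos.neg_iff_not b j).2 hj
      obtain ⟨m, hm⟩ := hD.pos hneg
      refine ⟨m, ?_⟩
      rw [← hkj, pairing_inv hg, ← hm, ← refl_root, P.reflection_apply_self, map_neg, LinearMap.neg_apply,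
        neg_neg]
    refine ⟨fun i => κ i + if i = k then m else 0, ?_⟩
    have h3 : ((P.reflection k, P.coreflection k) * g).2 D = g.2 D + (m : K) • P.coroot k := by
      change P.coreflection k (g.2 D) = _
      rw [P.coreflection_apply]
      have h4 : P.root' k (g.2 D) = -(m : K) := hm
      rw [h4, neg_smul, sub_neg_eq_add]
    have h5 : D - g.2 D = (D - ((P.reflection k, P.coreflection k) * g).2 D) + (m : K) • P.coroot k := by
      rw [h3]
      abel
    rw [h5, hκ]
    simp only [Nat.cast_add, add_smul, Finset.sum_add_distrib]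
    congr 1
    rw [Finset.sum_eq_single_of_mem k hk]
    · simp
    · intro i _ hik
      simp [hik]

/-- The stabiliser of a dominant coweight. -/
theorem stab_of_eq [P.IsRootSystem] [P.IsCrystallographic] [P.IsReduced] (b : P.Base) {D : N} (hD : Dom b D)
    {Λ : M} (hΛ : SDom b Λ) {g : (M ≃ₗ[K] M) × (N ≃ₗ[K] N)} (hg : g ∈ G P)
    (h : P.toLinearMap Λ (g.2 D) = P.toLinearMap Λ D) : g.2 D = D := by
  obtain ⟨κ, hκ⟩ := dom_cone b hD hg
  choose! k hk0 hk using hΛ
  have h1 : ∑ i ∈ b.support, (κ i : ℤ) * k i = 0 := by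
    have h2 : ((∑ i ∈ b.support, (κ i : ℤ) * k i : ℤ) : K) = 0 := by
      have h3 : P.toLinearMap Λ (D - g.2 D) = 0 := by
        rw [map_sub, h, sub_self]
      rw [hκ, map_sum] at h3
      rw [← h3]
      push_cast
      refine Finset.sum_congr rfl fun i hi => ?_
      rw [map_smul, hk i hi, smul_eq_mul]
    exact_mod_cast h2
  have h2 := (Finset.sum_eq_zero_iff_of_nonneg (fun i hi => mul_nonneg (Int.natCast_nonneg _) (hk0 i hi).le)).1 h1
  have h3 : D - g.2 D = 0 := by
    rw [hκ]
    refine Finset.sum_eq_zero fun i hi => ?_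
    rcases mul_eq_zero.1 (h2 i hi) with h4 | h4
    · have h5 : κ i = 0 := by exact_mod_cast h4
      rw [h5, Nat.cast_zero, zero_smul]
    · exact absurd h4 (hk0 i hi).ne'
  exact (sub_eq_zero.1 h3).symm

end PF.W
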