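import Pool.Agent.Helper3.PG.Dom

/-!
Project PG / LW: Weyl's dimension formula for the top degree part of a module with a grading.

`D` is a dominant coweight. Taking the part of highest degree in the character formula and in the
denominator identity of the dual system gives the dimension formula for the part of highest degree.
-/

open Module AddMonoidAlgebra

set_option linter.unusedSectionVars false

namespace PF.W

section top

variable {R K : Type*} [CommRing R] [Field K] [CharZero K]

/-- All exponents are `c` minus a natural number. -/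
def Low (c : K) (F : AddMonoidAlgebra R K) : Prop := ∀ a, F.coeff a ≠ 0 → ∃ n : ℕ, a = c - n

private theorem exists_of_coeff {F E : AddMonoidAlgebra R K} {μ : K} (h : (F * E).coeff μ ≠ 0) :
    ∃ x y, F.coeff x ≠ 0 ∧ E.coeff y ≠ 0 ∧ x + y = μ := by
  classical
  rw [AddMonoidAlgebra.coeff_mul, Finsupp.sum] at h
  obtain ⟨x, hx, h1⟩ := Finset.exists_ne_zero_of_sum_ne_zero h
  rw [Finsupp.sum] at h1
  obtain ⟨y, hy, h2⟩ := Finset.exists_ne_zero_of_sum_ne_zero h1
  refine ⟨x, y, Finsupp.mem_support_iff.1 hx, Finsupp.mem_support_iff.1 hy, ?_⟩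
  by_contra hne
  exact h2 (if_neg hne)

private theorem coeff_unique {F E : AddMonoidAlgebra R K} {x₀ y₀ : K}
    (h : ∀ x y, F.coeff x ≠ 0 → E.coeff y ≠ 0 → x + y = x₀ + y₀ → x = x₀ ∧ y = y₀) :
    (F * E).coeff (x₀ + y₀) = F.coeff x₀ * E.coeff y₀ := by
  classical
  rw [AddMonoidAlgebra.coeff_mul, Finsupp.sum]
  simp only [Finsupp.sum]
  by_cases hx : x₀ ∈ F.coeff.support
  · rw [Finset.sum_eq_single_of_mem x₀ hx]
    · by_cases hy : y₀ ∈ E.coeff.support
      · rw [Finset.sum_eq_single_of_mem y₀ hy]
        · rw [if_pos rfl]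
        · intro y hy' hne
          rw [if_neg]
          intro h1
          exact hne (add_left_cancel h1)
      · rw [Finsupp.notMem_support_iff.1 hy, mul_zero]
        refine Finset.sum_eq_zero fun y hy' => ?_
        rw [if_neg]
        intro h1
        exact hy (by rw [← add_left_cancel h1]; exact hy')
    · intro x hx' hne
      refine Finset.sum_eq_zero fun y hy' => ?_
      rw [if_neg]
      intro h1
      exact hne (h x y (Finsupp.mem_support_iff.1 hx') (Finsupp.mem_support_iff.1 hy') h1).1
  · rw [Finsupp.notMem_support_iff.1 hx, zero_mul]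
    refine Finset.sum_eq_zero fun x hx' => Finset.sum_eq_zero fun y hy' => ?_
    rw [if_neg]
    intro h1
    exact hx (by rw [← (h x y (Finsupp.mem_support_iff.1 hx') (Finsupp.mem_support_iff.1 hy') h1).1]; exact hx')

theorem Low.mul {c d : K} {F E : AddMonoidAlgebra R K} (hF : Low c F) (hE : Low d E) : Low (c + d) (F * E) := by
  intro a ha
  obtain ⟨x, y, hx, hy, rfl⟩ := exists_of_coeff ha
  obtain ⟨n, rfl⟩ := hF x hx
  obtain ⟨m, rfl⟩ := hE y hy
  exact ⟨n + m, by push_cast; ring⟩

theorem coeff_mul_top {c d : K} {F E : AddMonoidAlgebra R K} (hF : Low c F) (hE : Low d E) :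
    (F * E).coeff (c + d) = F.coeff c * E.coeff d := by
  apply coeff_unique
  intro x y hx hy h
  obtain ⟨n, rfl⟩ := hF x hx
  obtain ⟨m, rfl⟩ := hE y hy
  have h1 : ((n + m : ℕ) : K) = 0 := by
    push_cast
    linear_combination -h
  have h2 : n + m = 0 := by exact_mod_cast h1
  have h3 : n = 0 := by omega
  have h4 : m = 0 := by omega
  subst h3 h4
  simp

theorem prod_top {ι : Type*} (s : Finset ι) (c : ι → K) (F : ι → AddMonoidAlgebra R K)
    (h : ∀ i ∈ s, Low (c i) (F i)) : Low (∑ i ∈ s, c i) (∏ i ∈ s, F i) ∧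
      (∏ i ∈ s, F i).coeff (∑ i ∈ s, c i) = ∏ i ∈ s, (F i).coeff (c i) := by
  classical
  induction s using Finset.induction_on with
  | empty =>
    simp only [Finset.sum_empty, Finset.prod_empty]
    refine ⟨fun a ha => ?_, ?_⟩
    · rw [AddMonoidAlgebra.one_def, AddMonoidAlgebra.coeff_single, Finsupp.single_apply] at ha
      by_cases h0 : (0 : K) = a
      · exact ⟨0, by rw [← h0]; simp⟩
      · rw [if_neg h0] at ha
        exact absurd rfl ha
    · rw [AddMonoidAlgebra.one_def, AddMonoidAlgebra.coeff_single, Finsupp.single_eq_same]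
  | insert i s hi ih =>
    obtain ⟨h1, h2⟩ := ih fun j hj => h j (Finset.mem_insert_of_mem hj)
    have h3 := h i (Finset.mem_insert_self i s)
    rw [Finset.sum_insert hi, Finset.prod_insert hi, Finset.prod_insert hi]
    exact ⟨h3.mul h1, by rw [coeff_mul_top h3 h1, h2]⟩

end top

section ev

variable {K : Type*} [Field K] [CharZero K] {A : Type*} [AddCommGroup A]

private theorem ex_zero : ex (0 : K) = 1 := by
  simp [ex]

private theorem ex_add (a c : K) : ex (a + c) = ex a * ex c :=
  (PowerSeries.exp_mul_exp_eq_exp_add a c).symm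

private theorem ex_const (c : K) : PowerSeries.constantCoeff (ex c) = 1 := by
  rw [← PowerSeries.coeff_zero_eq_constantCoeff_apply, ex, PowerSeries.coeff_rescale]
  simp

private theorem ex_diff (c : K) : ∃ s : PowerSeries K,
    ex (2⁻¹ * c) - ex (-(2⁻¹ * c)) = PowerSeries.X * s ∧ PowerSeries.constantCoeff s = c := by
  refine ⟨PowerSeries.mk fun n => PowerSeries.coeff (n + 1) (ex (2⁻¹ * c) - ex (-(2⁻¹ * c))), ?_, ?_⟩
  · conv_lhs => rw [PowerSeries.eq_X_mul_shift_add_const (ex (2⁻¹ * c) - ex (-(2⁻¹ * c)))]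
    simp [ex_const]
  · rw [← PowerSeries.coeff_zero_eq_constantCoeff_apply, PowerSeries.coeff_mk]
    simp only [ex, map_sub, PowerSeries.coeff_rescale, PowerSeries.coeff_exp]
    simp
    ring

/-- The evaluation which keeps the degree `f` and replaces `e^x` by `exp (e x T)`. -/
noncomputable def ev2 (f e : A →+ K) : AddMonoidAlgebra K A →ₐ[K] AddMonoidAlgebra (PowerSeries K) K :=
  AddMonoidAlgebra.lift K _ A
    { toFun := fun x => single (f x.toAdd) (ex (e x.toAdd))
      map_one' := by simp [ex_zero, AddMonoidAlgebra.one_def]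
      map_mul' := fun x y => by simp [ex_add, AddMonoidAlgebra.single_mul_single] }

theorem ev2_single (f e : A →+ K) (x : A) (c : K) :
    ev2 f e (single x c) = single (f x) (PowerSeries.C c * ex (e x)) := by
  rw [ev2, AddMonoidAlgebra.lift_single]
  simp [PowerSeries.smul_eq_C_mul]

end ev

section main

variable {ι K M N : Type*} [Field K] [CharZero K] [AddCommGroup M] [Module K M] [AddCommGroup N] [Module K N]
  [Fintype ι] {P : RootPairing ι K M N}

open Classical in
/-- the top part of a factor of the denominator, evaluated -/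
noncomputable def tf (f e : K) : PowerSeries K := if f = 0 then ex (2⁻¹ * e) - ex (-(2⁻¹ * e)) else ex (2⁻¹ * e)

open Classical in
/-- The part of highest degree of the character formula, evaluated. -/
theorem top_sum [P.IsCrystallographic] [P.IsReduced] (b : P.Base) [Fintype (G P)]
    (χ : AddMonoidAlgebra K M) {Λ : M} (hχ : delta b * χ = ∑ g : G P, single (g.1.1 Λ) (sg g.1 : K))
    (f e : M →ₗ[K] K) (hf : ∀ i, b.IsPos i → ∃ n : ℕ, f (P.root i) = (n : K)) {c : K}
    (hc : Low c (ev2 f.toAddMonoidHom e.toAddMonoidHom χ)) (hΛ : f Λ = f (rho b) + c) :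
    (∏ i ∈ pos b, tf (f (P.root i)) (e (P.root i))) * (ev2 f.toAddMonoidHom e.toAddMonoidHom χ).coeff c =
      ∑ g : G P, if f (g.1.1 Λ) = f Λ then PowerSeries.C (sg g.1 : K) * ex (e (g.1.1 Λ)) else 0 := by
  have h1 := congrArg (ev2 f.toAddMonoidHom e.toAddMonoidHom) hχ
  rw [map_mul, map_sum, delta, map_prod] at h1
  simp only [map_sub, ev2_single] at h1
  have h2 : ∀ i ∈ pos b, Low (2⁻¹ * f (P.root i))
      ((single (f.toAddMonoidHom ((2⁻¹ : K) • P.root i)) (PowerSeries.C 1 * ex (e.toAddMonoidHom ((2⁻¹ : K) • P.root i))) -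
        single (f.toAddMonoidHom (-((2⁻¹ : K) • P.root i))) (PowerSeries.C 1 * ex (e.toAddMonoidHom (-((2⁻¹ : K) • P.root i)))) :
          AddMonoidAlgebra (PowerSeries K) K)) := by
    intro i hi a ha
    obtain ⟨n, hn⟩ := hf i (by simpa [pos] using hi)
    rw [AddMonoidAlgebra.coeff_sub, Finsupp.sub_apply, AddMonoidAlgebra.coeff_single, AddMonoidAlgebra.coeff_single,
      Finsupp.single_apply, Finsupp.single_apply] at ha
    by_cases h3 : f.toAddMonoidHom ((2⁻¹ : K) • P.root i) = a
    · refine ⟨0, ?_⟩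
      rw [← h3]
      simp
    · by_cases h4 : f.toAddMonoidHom (-((2⁻¹ : K) • P.root i)) = a
      · refine ⟨n, ?_⟩
        rw [← h4]
        simp [hn]
        ring
      · rw [if_neg h3, if_neg h4, sub_zero] at ha
        exact absurd rfl ha
  obtain ⟨h3, h4⟩ := prod_top _ _ _ h2
  have h5 := coeff_mul_top h3 hc
  have h6 : ∑ i ∈ pos b, 2⁻¹ * f (P.root i) + c = f Λ := by
    rw [hΛ]
    congr 1
    unfold rho
    rw [map_smul, map_sum, smul_eq_mul, Finset.mul_sum]
  rw [h6, h4] at h5
  have h7 := congrArg (fun F : AddMonoidAlgebra (PowerSeries K) K => F.coeff (f Λ)) h1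
  beta_reduce at h7
  rw [h5] at h7
  have h8 : ∀ i ∈ pos b, (single (f.toAddMonoidHom ((2⁻¹ : K) • P.root i)) (PowerSeries.C 1 * ex (e.toAddMonoidHom ((2⁻¹ : K) • P.root i))) -
        single (f.toAddMonoidHom (-((2⁻¹ : K) • P.root i))) (PowerSeries.C 1 * ex (e.toAddMonoidHom (-((2⁻¹ : K) • P.root i)))) :
          AddMonoidAlgebra (PowerSeries K) K).coeff (2⁻¹ * f (P.root i)) = tf (f (P.root i)) (e (P.root i)) := by
    intro i hi
    rw [AddMonoidAlgebra.coeff_sub, Finsupp.sub_apply, AddMonoidAlgebra.coeff_single, AddMonoidAlgebra.coeff_single,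
      Finsupp.single_apply, Finsupp.single_apply]
    unfold tf
    rw [if_pos (by simp)]
    by_cases h9 : f (P.root i) = 0
    · rw [if_pos h9, if_pos (by simp [h9])]
      simp
    · rw [if_neg h9, if_neg]
      · simp
      · intro h10
        apply h9
        have h11 : -(2⁻¹ * f (P.root i)) = 2⁻¹ * f (P.root i) := by simpa using h10
        linear_combination -h11
  rw [Finset.prod_congr rfl h8] at h7
  rw [h7, AddMonoidAlgebra.coeff_sum, Finsupp.finsetSum_apply]
  refine Finset.sum_congr rfl fun g _ => ?_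
  rw [AddMonoidAlgebra.coeff_single, Finsupp.single_apply]
  rfl

/-- the sum of the `(α, D) α` over all roots -/
noncomputable def varpi (P : RootPairing ι K M N) (D : N) : M := ∑ i, P.toLinearMap (P.root i) D • P.root i

theorem varpi_coroot (D : N) (j : ι) : 2 * P.toLinearMap (varpi P D) (P.coroot j) =
    (∑ i, P.pairing i j * P.pairing i j) * P.toLinearMap (P.root j) D := by
  have h1 : P.toLinearMap (varpi P D) (P.coroot j) = ∑ i, P.toLinearMap (P.root i) D * P.pairing i j := by
    unfold varpi
    rw [map_sum, LinearMap.sum_apply]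
    refine Finset.sum_congr rfl fun i _ => ?_
    rw [map_smul, LinearMap.smul_apply, smul_eq_mul]
    rfl
  have h2 : ∑ i, P.toLinearMap (P.root i) D * P.pairing i j =
      ∑ i, (P.toLinearMap (P.root i) D - P.pairing i j * P.toLinearMap (P.root j) D) * -P.pairing i j := by
    rw [← Equiv.sum_comp (P.reflectionPerm j)]
    refine Finset.sum_congr rfl fun i _ => ?_
    have h3 : P.pairing (P.reflectionPerm j i) j = - P.pairing i j := by
      have h4 := P.pairing_reflectionPerm_self_right
      rw [RootPairing.pairing, RootPairing.root', P.root_reflectionPerm, P.reflection_apply_root, map_sub, map_smul,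
        LinearMap.sub_apply, LinearMap.smul_apply, smul_eq_mul]
      change P.pairing i j - P.pairing i j * P.pairing j j = _
      rw [P.pairing_same]
      ring
    rw [h3, P.root_reflectionPerm, P.reflection_apply_root, map_sub, map_smul, LinearMap.sub_apply,
      LinearMap.smul_apply, smul_eq_mul]
  rw [h1]
  have h3 : ∑ i, (P.toLinearMap (P.root i) D - P.pairing i j * P.toLinearMap (P.root j) D) * -P.pairing i j =
      - ∑ i, P.toLinearMap (P.root i) D * P.pairing i j +
        (∑ i, P.pairing i j * P.pairing i j) * P.toLinearMap (P.root j) D := by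
    rw [Finset.sum_mul, ← Finset.sum_neg_distrib, ← Finset.sum_add_distrib]
    refine Finset.sum_congr rfl fun i _ => ?_
    ring
  rw [h3] at h2
  linear_combination h2

theorem varpi_map {g : (M ≃ₗ[K] M) × (N ≃ₗ[K] N)} (hg : g ∈ G P) (D : N) :
    g.1 (varpi P D) = varpi P (g.2 D) := by
  classical
  choose σ hσ _ using map_root hg
  have hinj : Function.Injective σ := by
    intro i j h
    have h1 : g.1 (P.root i) = g.1 (P.root j) := by rw [hσ, hσ, h]
    exact P.root.injective (g.1.injective h1)
  have hbij : Function.Bijective σ := Finite.injective_iff_bijective.1 hinj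
  unfold varpi
  rw [map_sum]
  conv_rhs => rw [← (Equiv.ofBijective σ hbij).sum_comp]
  refine Finset.sum_congr rfl fun i _ => ?_
  rw [map_smul]
  change _ = P.toLinearMap (P.root (σ i)) (g.2 D) • P.root (σ i)
  rw [← hσ, pairing_inv hg]

theorem varpi_inj [P.IsRootSystem] {y : N} (hy : ∀ i, ∃ k : ℤ, P.toLinearMap (P.root i) y = (k : K))
    (h : varpi P y = 0) : y = 0 := by
  choose k hk using hy
  have h1 : ∑ i, k i * k i = 0 := by
    have h2 : ((∑ i, k i * k i : ℤ) : K) = 0 := by
      have h3 : P.toLinearMap (varpi P y) y = 0 := by rw [h, map_zero, LinearMap.zero_apply]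
      unfold varpi at h3
      rw [map_sum, LinearMap.sum_apply] at h3
      rw [← h3]
      push_cast
      refine Finset.sum_congr rfl fun i _ => ?_
      rw [map_smul, LinearMap.smul_apply, smul_eq_mul, hk]
    exact_mod_cast h2
  have h2 := (Finset.sum_eq_zero_iff_of_nonneg fun i _ => mul_self_nonneg (k i)).1 h1
  have h3 : ∀ i, P.toLinearMap (P.root i) y = 0 := by
    intro i
    rw [hk, mul_self_eq_zero.1 (h2 i (Finset.mem_univ i)), Int.cast_zero]
  have h4 : P.toLinearMap.flip y = 0 := by
    ext x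
    have hx : x ∈ Submodule.span K (Set.range P.root) := by
      have h5 : Submodule.span K (Set.range P.root) = ⊤ := RootPairing.IsRootSystem.span_root_eq_top
      rw [h5]
      trivial
    induction hx using Submodule.span_induction with
    | mem x hx =>
      obtain ⟨i, rfl⟩ := hx
      simpa using h3 i
    | zero => simp
    | add a b _ _ ha hb =>
      rw [map_add, ha, hb]
      simp
    | smul c a _ ha =>
      rw [map_smul, ha]
      simp
  exact P.flip.toPerfPair.injective (a₁ := y) (a₂ := 0) (by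
    rw [map_zero]
    exact h4)

theorem Dom.int {b : P.Base} [P.IsCrystallographic] {D : N} (hD : Dom b D) (i : ι) :
    ∃ k : ℤ, P.toLinearMap (P.root i) D = (k : K) := by
  by_cases hi : b.IsPos i
  · obtain ⟨k, hk⟩ := hD.pos hi
    exact ⟨k, by rw [hk]; simp⟩
  · have hneg : b.IsPos (P.reflectionPerm i i) := by
      let := P.indexNeg
      exact (RootPairing.Base.IsPos.neg_iff_not b i).2 hi
    obtain ⟨k, hk⟩ := hD.pos hneg
    refine ⟨-k, ?_⟩
    rw [P.root_reflectionPerm, P.reflection_apply_self, map_neg, LinearMap.neg_apply] at hk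
    push_cast
    rw [← hk, neg_neg]

theorem varpi_zero_iff (D : N) (j : ι) [P.IsCrystallographic] : P.toLinearMap (varpi P D) (P.coroot j) = 0 ↔
    P.toLinearMap (P.root j) D = 0 := by
  have h1 := varpi_coroot (P := P) D j
  have h2 : (∑ i, P.pairing i j * P.pairing i j) ≠ 0 := by
    have h3 : ∑ i, P.pairing i j * P.pairing i j = ((∑ i, P.pairingIn ℤ i j * P.pairingIn ℤ i j : ℤ) : K) := by
      push_cast
      refine Finset.sum_congr rfl fun i _ => ?_
      rw [← P.algebraMap_pairingIn ℤ i j]
      rfl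
    have h4 : 0 < ∑ i, P.pairingIn ℤ i j * P.pairingIn ℤ i j := by
      refine Finset.sum_pos' (fun i _ => mul_self_nonneg _) ⟨j, Finset.mem_univ j, ?_⟩
      rw [P.pairingIn_same ℤ j]
      norm_num
    rw [h3]
    exact_mod_cast h4.ne'
  constructor
  · intro h
    rw [h, mul_zero] at h1
    exact (mul_eq_zero.1 h1.symm).resolve_left h2
  · intro h
    rw [h, mul_zero] at h1
    exact (mul_eq_zero.1 h1).resolve_left two_ne_zero

theorem pos_flip [P.IsRootSystem] [P.IsCrystallographic] [P.IsReduced] (b : P.Base) : pos b.flip = pos b := by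
  classical
  ext i
  simp [pos, isPos_flip]

theorem rho_flip [P.IsRootSystem] [P.IsCrystallographic] [P.IsReduced] (b : P.Base) : rho b.flip = crho b := by
  simp [rho, crho, pos_flip]

theorem varpi_dom [P.IsRootSystem] [P.IsCrystallographic] [P.IsReduced] {b : P.Base} {D : N} (hD : Dom b D) :
    Dom (P := P.flip) b.flip (varpi P D) := by
  intro j hj
  change ∃ k : ℕ, P.toLinearMap (varpi P D) (P.coroot j) = (k : K)
  have hj' : j ∈ b.support := hj
  choose k hk using hD.int
  obtain ⟨m, hm⟩ := hD j hj'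
  have h1 : P.toLinearMap (varpi P D) (P.coroot j) = ((∑ i, k i * P.pairingIn ℤ i j : ℤ) : K) := by
    unfold varpi
    rw [map_sum, LinearMap.sum_apply]
    push_cast
    refine Finset.sum_congr rfl fun i _ => ?_
    rw [map_smul, LinearMap.smul_apply, smul_eq_mul, hk]
    congr 1
    exact (P.algebraMap_pairingIn ℤ i j).symm
  have h2 : 2 * (∑ i, k i * P.pairingIn ℤ i j) = (∑ i, P.pairingIn ℤ i j * P.pairingIn ℤ i j) * m := by
    have h3 := varpi_coroot (P := P) D j
    rw [h1, hm] at h3
    have h4 : ∑ i, P.pairing i j * P.pairing i j = ((∑ i, P.pairingIn ℤ i j * P.pairingIn ℤ i j : ℤ) : K) := by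
      push_cast
      refine Finset.sum_congr rfl fun i _ => ?_
      rw [← P.algebraMap_pairingIn ℤ i j]
      rfl
    rw [h4] at h3
    exact_mod_cast h3
  have h3 : 0 ≤ ∑ i, k i * P.pairingIn ℤ i j := by
    have h4 : 0 ≤ (∑ i, P.pairingIn ℤ i j * P.pairingIn ℤ i j) * (m : ℤ) :=
      mul_nonneg (Finset.sum_nonneg fun i _ => mul_self_nonneg _) (by positivity)
    linarith
  obtain ⟨n, hn⟩ := Int.eq_ofNat_of_zero_le h3
  exact ⟨n, by rw [h1, hn]; simp⟩

theorem stab_iff [P.IsRootSystem] [P.IsCrystallographic] {b : P.Base} {D : N} (hD : Dom b D)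
    {g : (M ≃ₗ[K] M) × (N ≃ₗ[K] N)} (hg : g ∈ G P) : g.1 (varpi P D) = varpi P D ↔ g.2 D = D := by
  constructor
  · intro h
    rw [varpi_map hg] at h
    have h1 : varpi P (g.2 D - D) = 0 := by
      have h2 : varpi P (g.2 D - D) = varpi P (g.2 D) - varpi P D := by
        unfold varpi
        rw [← Finset.sum_sub_distrib]
        refine Finset.sum_congr rfl fun i _ => ?_
        rw [map_sub, sub_smul]
      rw [h2, h, sub_self]
    rw [← sub_eq_zero]
    refine varpi_inj (P := P) (fun i => ?_) h1
    obtain ⟨k, hk⟩ := hD.int i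
    obtain ⟨j, hj, -⟩ := map_root (inv_mem hg) i
    obtain ⟨l, hl⟩ := hD.int j
    refine ⟨l - k, ?_⟩
    rw [map_sub, hk]
    push_cast
    congr 1
    rw [← hl, ← hj]
    have h3 := pairing_inv hg (g⁻¹.1 (P.root i)) D
    rw [← h3]
    have h4 : g.1 (g⁻¹.1 (P.root i)) = P.root i := by simp
    rw [h4]
  · intro h
    rw [varpi_map hg, h]

/-- the identity for the series -/
theorem levi_series [P.IsRootSystem] [P.IsCrystallographic] [P.IsReduced] (b : P.Base) [Fintype (G P)]
    (χ : AddMonoidAlgebra K M) {Λ : M} (hΛs : SDom b Λ)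
    (hχ : delta b * χ = ∑ g : G P, single (g.1.1 Λ) (sg g.1 : K)) {D : N} (hD : Dom b D) {c : K}
    (hc : Low c (ev2 (P.toLinearMap.flip D).toAddMonoidHom (P.toLinearMap.flip (crho b)).toAddMonoidHom χ))
    (hΛ : P.toLinearMap Λ D = P.toLinearMap (rho b) D + c) :
    (∏ i ∈ pos b, tf (P.toLinearMap (P.root i) D) (P.toLinearMap (P.root i) (crho b))) *
      (ev2 (P.toLinearMap.flip D).toAddMonoidHom (P.toLinearMap.flip (crho b)).toAddMonoidHom χ).coeff c =
      ∏ i ∈ pos b, tf (P.toLinearMap (P.root i) D) (P.toLinearMap Λ (P.coroot i)) := by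
  classical
  have h1 := top_sum b χ hχ (P.toLinearMap.flip D) (P.toLinearMap.flip (crho b))
    (fun i hi => hD.pos hi) hc hΛ
  simp only [LinearMap.flip_apply] at h1
  rw [h1]
  -- the dual side
  let e : G P ≃ G P.flip :=
    { toFun := fun g => ⟨(g⁻¹).1.swap, swap_mem (g⁻¹).2⟩
      invFun := fun g => ⟨(g⁻¹).1.swap, swap_mem (P := P.flip) (g⁻¹).2⟩
      left_inv := fun g => by
        apply Subtype.ext
        simp
      right_inv := fun g => by
        apply Subtype.ext
        simp }
  let _ : Fintype (G P.flip) := Fintype.ofEquiv _ e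
  have h2 : delta b.flip * (1 : AddMonoidAlgebra K N) = ∑ g : G P.flip, single (g.1.1 (crho b)) (sg g.1 : K) := by
    rw [mul_one, denom (P := P.flip) b.flip, rho_flip]
  have hlow : Low (0 : K) (ev2 (P.toLinearMap (varpi P D)).toAddMonoidHom (P.toLinearMap Λ).toAddMonoidHom
      (1 : AddMonoidAlgebra K N)) := by
    intro a ha
    rw [map_one, AddMonoidAlgebra.one_def, AddMonoidAlgebra.coeff_single, Finsupp.single_apply] at ha
    by_cases h0 : (0 : K) = a
    · exact ⟨0, by rw [← h0]; simp⟩
    · rw [if_neg h0] at ha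
      exact absurd rfl ha
  have h3 := top_sum (P := P.flip) b.flip (1 : AddMonoidAlgebra K N) h2 (P.toLinearMap (varpi P D))
    (P.toLinearMap Λ) (fun i hi => (varpi_dom hD).pos hi) hlow (by rw [rho_flip, add_zero])
  rw [map_one, AddMonoidAlgebra.one_def, AddMonoidAlgebra.coeff_single, Finsupp.single_eq_same, mul_one, pos_flip] at h3
  have h4 : ∀ i ∈ pos b, tf (P.toLinearMap (varpi P D) (P.flip.root i)) (P.toLinearMap Λ (P.flip.root i)) =
      tf (P.toLinearMap (P.root i) D) (P.toLinearMap Λ (P.coroot i)) := by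
    intro i _
    change tf (P.toLinearMap (varpi P D) (P.coroot i)) (P.toLinearMap Λ (P.coroot i)) = _
    unfold tf
    by_cases h5 : P.toLinearMap (P.root i) D = 0
    · rw [if_pos h5, if_pos ((varpi_zero_iff D i).2 h5)]
    · rw [if_neg h5, if_neg (fun h => h5 ((varpi_zero_iff D i).1 h))]
  rw [Finset.prod_congr rfl h4] at h3
  rw [h3, ← e.sum_comp]
  refine Finset.sum_congr rfl fun g _ => ?_
  have h5 : (sg (e g).1 : K) = sg g.1 := by
    change sg ((g⁻¹ : G P).1).swap = _
    rw [sg_swap (g⁻¹).2]
    have h6 : (sg ((g⁻¹ : G P).1) : K) * sg g.1 = 1 := by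
      rw [← sg_mul]
      have : ((g⁻¹ : G P).1) * g.1 = 1 := by simp
      rw [this]
      simp [sg]
    rcases sg_sq g.2 with h | h <;> rw [h] at h6 ⊢
    · simpa using h6
    · linear_combination -h6
  have h6 : ∀ x : M, ∀ y : N, P.toLinearMap x ((e g).1.1 y) = P.toLinearMap (g.1.1 x) y := by
    intro x y
    change P.toLinearMap x ((g.1⁻¹).2 y) = _
    rw [← pairing_inv g.2]
    congr 1
    simp
  have h7 : P.toLinearMap (g.1.1 Λ) D = P.toLinearMap Λ D ↔ (g.1.2 D = D) := by
    have h8 : P.toLinearMap (g.1.1 Λ) D = P.toLinearMap Λ ((g.1⁻¹).2 D) := (h6 Λ D).symm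
    rw [h8]
    constructor
    · intro h
      have h9 := stab_of_eq b hD hΛs (inv_mem g.2) h
      have h10 : g.1.2 ((g.1⁻¹).2 D) = D := by simp
      rwa [h9] at h10
    · intro h
      have h9 : (g.1⁻¹).2 (g.1.2 D) = D := by simp
      rw [h] at h9
      rw [h9]
  have h8 : P.toLinearMap (varpi P D) ((e g).1.1 (crho b)) = P.toLinearMap (varpi P D) (crho b) ↔ (g.1.2 D = D) := by
    rw [← stab_iff hD g.2]
    have hsd : SDom (P := P.flip) b.flip (crho b) := by
      intro i hi
      refine ⟨1, one_pos, ?_⟩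
      have h9 := rho_coroot (P := P.flip) b.flip hi
      rw [rho_flip] at h9
      rw [h9]
      simp
    rw [h6]
    constructor
    · intro h
      have h9 : (g.1.swap).2 (varpi P D) = varpi P D :=
        stab_of_eq (P := P.flip) b.flip (varpi_dom hD) hsd (swap_mem g.2) h
      exact h9
    · intro h
      rw [h]
  rw [h6 Λ, h5]
  by_cases h9 : g.1.2 D = D
  · rw [if_pos (h7.2 h9), if_pos (h8.2 h9)]
  · rw [if_neg (fun h => h9 (h7.1 h)), if_neg (fun h => h9 (h8.1 h))]

open Classical in
private theorem tf_eq (f e : K) : ∃ s : PowerSeries K,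
    tf f e = (if f = 0 then PowerSeries.X else 1) * s ∧
      PowerSeries.constantCoeff s = if f = 0 then e else 1 := by
  unfold tf
  by_cases h : f = 0
  · obtain ⟨s, h1, h2⟩ := ex_diff e
    exact ⟨s, by rw [if_pos h, if_pos h, h1], by rw [if_pos h, h2]⟩
  · exact ⟨ex (2⁻¹ * e), by rw [if_neg h, if_neg h, one_mul], by rw [if_neg h, ex_const]⟩

open Classical in
/-- the product formula for the part of highest degree -/
theorem levi_prod [P.IsRootSystem] [P.IsCrystallographic] [P.IsReduced] (b : P.Base) [Fintype (G P)]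
    (χ : AddMonoidAlgebra K M) {Λ : M} (hΛs : SDom b Λ)
    (hχ : delta b * χ = ∑ g : G P, single (g.1.1 Λ) (sg g.1 : K)) {D : N} (hD : Dom b D) {c : K}
    (hc : Low c (ev2 (P.toLinearMap.flip D).toAddMonoidHom (P.toLinearMap.flip (crho b)).toAddMonoidHom χ))
    (hΛ : P.toLinearMap Λ D = P.toLinearMap (rho b) D + c) :
    (∏ i ∈ pos b, if P.toLinearMap (P.root i) D = 0 then P.toLinearMap (P.root i) (crho b) else 1) *
      PowerSeries.constantCoeff
        ((ev2 (P.toLinearMap.flip D).toAddMonoidHom (P.toLinearMap.flip (crho b)).toAddMonoidHom χ).coeff c) =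
      ∏ i ∈ pos b, if P.toLinearMap (P.root i) D = 0 then P.toLinearMap Λ (P.coroot i) else 1 := by
  classical
  have h1 := levi_series b χ hΛs hχ hD hc hΛ
  choose s hs1 hs2 using tf_eq (K := K)
  simp only [hs1, Finset.prod_mul_distrib] at h1
  rw [mul_assoc] at h1
  have h0 : (∏ i ∈ pos b, if P.toLinearMap (P.root i) D = 0 then (PowerSeries.X : PowerSeries K) else 1) ≠ 0 := by
    refine Finset.prod_ne_zero_iff.2 fun i _ => ?_
    split_ifs
    · exact PowerSeries.X_ne_zero
    · exact one_ne_zero
  have h2 := mul_left_cancel₀ h0 h1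
  have h3 := congrArg PowerSeries.constantCoeff h2
  rw [map_mul, map_prod, map_prod] at h3
  simpa only [hs2] using h3

end main

end PF.W

namespace PF.L

open LieModule LieAlgebra LieAlgebra.IsKilling MTP.MF PF.W

variable {K : Type*} [Field K] [CharZero K] [IsAlgClosed K]
  {L : Type*} [LieRing L] [LieAlgebra K L] [FiniteDimensional K L] [IsKilling K L]
  {H : LieSubalgebra K L} [H.IsCartanSubalgebra]
  {V : Type*} [AddCommGroup V] [Module K V] [FiniteDimensional K V]
  [LieRingModule L V] [LieModule K L V] {I : Type*} [Fintype I]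

open Classical in
/-- **Weyl's dimension formula for the top degree part.** -/
theorem levi (B : WB (V := V) H I) [Nonempty I]
    (hirr : ∀ W : Submodule K V, (∀ x : L, ∀ u ∈ W, ⁅x, u⁆ ∈ W) → W = ⊥ ∨ W = ⊤)
    (hfaith : ∀ x : L, (∀ u : V, ⁅x, u⁆ = 0) → x = 0) (b : (rootSystem H).Base) {D : H} (hD : Dom b D) :
    ∃ t : I, (∀ i, Below b (B.w t) (B.w i)) ∧ (∀ j ∈ b.support, ∃ k : ℕ, B.w t (coroot j.1) = (k : K)) ∧
      ((Finset.univ.filter fun i => B.w i D = B.w t D).card : K) *
        ∏ α ∈ (pos b).filter (fun α => α.1 D = 0), rho b (coroot α.1) =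
          ∏ α ∈ (pos b).filter (fun α => α.1 D = 0), (B.w t + rho b) (coroot α.1) := by
  have hfin : Finite (G (rootSystem H)) := finite_G
  let _ : Fintype (G (rootSystem H)) := Fintype.ofFinite _
  obtain ⟨t, h1, h2, h3⟩ := character B hirr hfaith b
  refine ⟨t, h1, h2, ?_⟩
  have hsd : SDom b (rho b) := by
    intro i hi
    exact ⟨1, one_pos, by rw [rho_coroot b hi]; simp⟩
  have hsd' : SDom b (B.w t + rho b) := by
    intro i hi
    obtain ⟨k, hk⟩ := h2 i hi
    refine ⟨k + 1, by positivity, ?_⟩
    have h4 := rho_coroot b hi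
    rw [map_add, LinearMap.add_apply, h4]
    have h5 : (rootSystem H).toLinearMap (B.w t) ((rootSystem H).coroot i) = (k : K) := hk
    rw [h5]
    push_cast
    rfl
  -- the character
  have hev : (ev2 ((rootSystem H).toLinearMap.flip D).toAddMonoidHom
      ((rootSystem H).toLinearMap.flip (crho b)).toAddMonoidHom) (chi B) =
      ∑ i, single (B.w i D) (ex (B.w i (crho b))) := by
    unfold chi
    rw [map_sum]
    refine Finset.sum_congr rfl fun i _ => ?_
    rw [ev2_single, map_one, one_mul]
    rfl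
  have hlow : Low (B.w t D) ((ev2 ((rootSystem H).toLinearMap.flip D).toAddMonoidHom
      ((rootSystem H).toLinearMap.flip (crho b)).toAddMonoidHom) (chi B)) := by
    intro a ha
    rw [hev, AddMonoidAlgebra.coeff_sum, Finsupp.finsetSum_apply] at ha
    obtain ⟨i, -, hi⟩ := Finset.exists_ne_zero_of_sum_ne_zero ha
    rw [AddMonoidAlgebra.coeff_single, Finsupp.single_apply] at hi
    have h4 : B.w i D = a := by
      by_contra h
      exact hi (if_neg h)
    obtain ⟨κ, hκ⟩ := h1 i
    have h5 : ∀ j ∈ b.support, ∃ k : ℕ, (rootSystem H).root j D = (k : K) := hD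
    choose! k hk using h5
    refine ⟨∑ j ∈ b.support, κ j * k j, ?_⟩
    rw [← h4, hκ, LinearMap.sub_apply, LinearMap.sum_apply]
    congr 1
    push_cast
    refine Finset.sum_congr rfl fun j hj => ?_
    rw [LinearMap.smul_apply, hk j hj, smul_eq_mul]
  have hcoeff : PowerSeries.constantCoeff (((ev2 ((rootSystem H).toLinearMap.flip D).toAddMonoidHom
      ((rootSystem H).toLinearMap.flip (crho b)).toAddMonoidHom) (chi B)).coeff (B.w t D)) =
      ((Finset.univ.filter fun i => B.w i D = B.w t D).card : K) := by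
    rw [hev, AddMonoidAlgebra.coeff_sum, Finsupp.finsetSum_apply, map_sum, Finset.card_filter]
    push_cast
    refine Finset.sum_congr rfl fun i _ => ?_
    rw [AddMonoidAlgebra.coeff_single, Finsupp.single_apply]
    split_ifs
    · rw [← PowerSeries.coeff_zero_eq_constantCoeff_apply, ex, PowerSeries.coeff_rescale]
      simp
    · simp
  have h4 := levi_prod b (chi B) hsd' h3 hD hlow (by
    rw [map_add, LinearMap.add_apply, add_comm]
    rfl)
  have hden : delta b * (1 : AddMonoidAlgebra K (Dual K H)) =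
      ∑ g : G (rootSystem H), single (g.1.1 (rho b)) (sg g.1 : K) := by
    rw [mul_one]
    exact denom b
  have h5 := levi_prod b (1 : AddMonoidAlgebra K (Dual K H)) hsd hden hD (c := 0) (by
    intro a ha
    rw [map_one, AddMonoidAlgebra.one_def, AddMonoidAlgebra.coeff_single, Finsupp.single_apply] at ha
    by_cases h0 : (0 : K) = a
    · exact ⟨0, by rw [← h0]; simp⟩
    · rw [if_neg h0] at ha
      exact absurd rfl ha) (by rw [add_zero])
  rw [map_one, AddMonoidAlgebra.one_def, AddMonoidAlgebra.coeff_single, Finsupp.single_eq_same, map_one, mul_one] at h5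
  rw [hcoeff] at h4
  rw [Finset.prod_filter, Finset.prod_filter]
  have h6 : ∀ α : H.root, (rootSystem H).toLinearMap ((rootSystem H).root α) D = α.1 D := fun α => rfl
  simp only [h6] at h4 h5
  rw [h5, mul_comm] at h4
  exact h4

end PF.L
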